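import Pool.Agent.Lib.MP_144d21_co.XU.Iface

/-!
# Module BLOCK (helper80): reduction to 2-connected graphs
-/

set_option autoImplicit false

namespace Pool.Agent.Xu.H80

open Finset Polynomial

variable {V : Type} [Fintype V] [DecidableEq V]

omit [Fintype V] in
/-- small sets carry no long induced cycle -/
theorem chordalOn_of_card {G : SimpleGraph V} {S : Finset V} (h : S.card ≤ 3) :
    ChordalOn G S := by
  intro n hn f
  by_contra hcon
  push Not at hcon
  have h1 : (Finset.univ.image f).card = n := by
    rw [Finset.card_image_of_injective _ f.injective, Finset.card_univ, Fintype.card_fin]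
  have h2 : Finset.univ.image f ⊆ S := by
    intro x hx
    obtain ⟨i, _, rfl⟩ := Finset.mem_image.1 hx
    exact hcon i
  have h3 := Finset.card_le_card h2
  omega

/-- both factors of a good polynomial are good -/
theorem good_of_mul (hF : FactS) {G : SimpleGraph V} {S : Finset V} {Q : ℤ[X]} {a r0 r1 a' b : ℕ}
    (hP : (chi G S).Monic) (hQ : Q.Monic) (ha : a' ≤ a)
    (h : chi G S * Q = X ^ r0 * (X - C 1) ^ r1 * (X - C 2) ^ a' * (X - C 3) ^ b) : Good G S a := by
  obtain ⟨r0', r1', a'', b', h1, h2⟩ := hF _ _ _ _ _ _ hP hQ h
  exact ⟨r0', r1', a'', b', h1.trans ha, h2⟩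

theorem block (hGl : ChiglS) (hCo : CoefS) (hF : FactS) (hCh : ChgS) : BlockS := by
  intro V _ _ G Pr a hPr hTwo
  -- strong induction on the number of vertices
  have key : ∀ n : ℕ, ∀ S : Finset V, S.card = n → Pr S → Good G S a → ChordalOn G S := by
    intro n
    induction n using Nat.strong_induction_on with
    | _ n ih =>
      intro S hn hS hG
      have hmon : ∀ T : Finset V, (chi G T).Monic := fun T => (hCo V G T).1
      by_cases hsmall : S.card ≤ 3
      · exact chordalOn_of_card hsmall
      push Not at hsmall
      by_cases hT : TwoConn G S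
      · exact hTwo S hT hS hG
      by_cases hC : Conn G S
      · -- a cut vertex
        have h1 : ∃ v ∈ S, ¬ Conn G (S.erase v) := by
          by_contra hcon
          push Not at hcon
          exact hT ⟨by omega, hC, hcon⟩
        obtain ⟨v, hv, hvc⟩ := h1
        have hne : (S.erase v).Nonempty := by
          rw [← Finset.card_pos, Finset.card_erase_of_mem hv]
          omega
        have h2 : ∃ A ⊆ S.erase v, A.Nonempty ∧ A ≠ S.erase v ∧
            ∀ x ∈ A, ∀ y ∈ S.erase v, y ∉ A → ¬ G.Adj x y := by
          by_contra hcon
          push Not at hcon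
          refine hvc ⟨hne, fun A hA hAn hAs => ?_⟩
          obtain ⟨x, hx, y, hy, hyA, hxy⟩ := hcon A hA hAn hAs
          exact ⟨x, hx, y, hy, hyA, hxy⟩
        obtain ⟨A, hA, hAn, hAs, hAe⟩ := h2
        have hvA : v ∉ A := fun h => Finset.notMem_erase v S (hA h)
        have hAS : A ⊆ S := hA.trans (Finset.erase_subset _ _)
        set S1 := insert v A with hS1
        set S2 := S \ A with hS2
        have hU : S1 ∪ S2 = S := by
          ext x
          simp only [hS1, hS2, mem_union, mem_insert, mem_sdiff]
          constructor
          · rintro ((rfl | h) | h)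
            · exact hv
            · exact hAS h
            · exact h.1
          · intro h
            by_cases hx : x ∈ A
            · exact Or.inl (Or.inr hx)
            · exact Or.inr ⟨h, hx⟩
        have hI : S1 ∩ S2 = {v} := by
          ext x
          simp only [hS1, hS2, mem_inter, mem_insert, mem_sdiff, mem_singleton]
          constructor
          · rintro ⟨rfl | h, h2⟩
            · rfl
            · exact absurd h h2.2
          · rintro rfl
            exact ⟨Or.inl rfl, hv, hvA⟩
        have hSep : Sep G S1 S2 := by
          intro x hx hx2 y hy hy2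
          have hxA : x ∈ A := by
            rcases Finset.mem_insert.1 hx with rfl | h
            · exact absurd (Finset.mem_sdiff.2 ⟨hv, hvA⟩) hx2
            · exact h
          have hyv : y ≠ v := fun h => hy2 (by rw [h]; exact Finset.mem_insert_self _ _)
          have hyA : y ∉ A := fun h => hy2 (Finset.mem_insert_of_mem h)
          exact hAe x hxA y (Finset.mem_erase.2 ⟨hyv, (Finset.mem_sdiff.1 hy).1⟩) hyA
        have hchi := (hGl V G S1 S2 hSep).2.1 v hI
        rw [hU] at hchi
        obtain ⟨r0, r1, a', b, ha', hS'⟩ := hG
        have hprod : chi G S1 * chi G S2 =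
            X ^ (r0 + 1) * (X - C 1) ^ r1 * (X - C 2) ^ a' * (X - C 3) ^ b := by
          rw [← hchi, hS', pow_succ]
          ring
        have g1 : Good G S1 a := good_of_mul hF (hmon _) (hmon _) ha' hprod
        have g2 : Good G S2 a := good_of_mul hF (hmon _) (hmon _) ha'
          (by rw [mul_comm]; exact hprod)
        have hS1S : S1 ⊆ S := by rw [← hU]; exact Finset.subset_union_left
        have hS2S : S2 ⊆ S := by rw [← hU]; exact Finset.subset_union_right
        have c1 : S1.card < n := by
          rw [← hn]
          apply Finset.card_lt_card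
          refine ⟨hS1S, fun h => hAs ?_⟩
          apply Finset.Subset.antisymm hA
          intro x hx
          rcases Finset.mem_insert.1 (h (Finset.mem_of_mem_erase hx)) with rfl | h'
          · exact absurd hx (Finset.notMem_erase _ _)
          · exact h'
        have c2 : S2.card < n := by
          rw [← hn]
          apply Finset.card_lt_card
          refine ⟨hS2S, fun h => ?_⟩
          obtain ⟨x, hx⟩ := hAn
          exact (Finset.mem_sdiff.1 (h (hAS hx))).2 hx
        have d1 := ih _ c1 S1 rfl (hPr S S1 hS1S hS) g1
        have d2 := ih _ c2 S2 rfl (hPr S S2 hS2S hS) g2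
        have := hCh V G S1 S2 hSep (by
          intro x hx y hy hxy
          rw [hI, mem_singleton] at hx hy
          exact absurd (hx.trans hy.symm) hxy) d1 d2
        rwa [hU] at this
      · -- not connected
        have hne : S.Nonempty := by
          rw [← Finset.card_pos]
          omega
        have h2 : ∃ A ⊆ S, A.Nonempty ∧ A ≠ S ∧
            ∀ x ∈ A, ∀ y ∈ S, y ∉ A → ¬ G.Adj x y := by
          by_contra hcon
          push Not at hcon
          refine hC ⟨hne, fun A hA hAn hAs => ?_⟩
          obtain ⟨x, hx, y, hy, hyA, hxy⟩ := hcon A hA hAn hAs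
          exact ⟨x, hx, y, hy, hyA, hxy⟩
        obtain ⟨A, hAS, hAn, hAs, hAe⟩ := h2
        set S2 := S \ A with hS2
        have hU : A ∪ S2 = S := Finset.union_sdiff_of_subset hAS
        have hI : A ∩ S2 = ∅ := Finset.inter_sdiff_self _ _
        have hSep : Sep G A S2 := by
          intro x hx _ y hy hy2
          exact hAe x hx y (Finset.mem_sdiff.1 hy).1 hy2
        have hchi := (hGl V G A S2 hSep).1 hI
        rw [hU] at hchi
        obtain ⟨r0, r1, a', b, ha', hS'⟩ := hG
        have hprod : chi G A * chi G S2 =
            X ^ r0 * (X - C 1) ^ r1 * (X - C 2) ^ a' * (X - C 3) ^ b := by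
          rw [← hchi, hS']
        have g1 : Good G A a := good_of_mul hF (hmon _) (hmon _) ha' hprod
        have g2 : Good G S2 a := good_of_mul hF (hmon _) (hmon _) ha'
          (by rw [mul_comm]; exact hprod)
        have c1 : A.card < n := by
          rw [← hn]
          exact Finset.card_lt_card (Finset.ssubset_iff_subset_ne.2 ⟨hAS, hAs⟩)
        have c2 : S2.card < n := by
          rw [← hn]
          apply Finset.card_lt_card
          refine ⟨Finset.sdiff_subset, fun h => ?_⟩
          obtain ⟨x, hx⟩ := hAn
          exact (Finset.mem_sdiff.1 (h (hAS hx))).2 hx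
        have d1 := ih _ c1 A rfl (hPr S A hAS hS) g1
        have d2 := ih _ c2 S2 rfl (hPr S S2 Finset.sdiff_subset hS) g2
        have := hCh V G A S2 hSep (by
          intro x hx
          rw [hI] at hx
          exact absurd hx (Finset.notMem_empty _)) d1 d2
        rwa [hU] at this
  intro S hS hG
  exact key _ S rfl hS hG

end Pool.Agent.Xu.H80
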