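import Pool.Agent.Lib.MP_144d21_co.XU.Iface
import Pool.Agent.Lib.MP_144d21_co.XU.H80.Block

/-!
# Module BASE3 (helper80): `K_2` and `K_3`
-/

set_option autoImplicit false

namespace Pool.Agent.Xu.H80

open Finset Polynomial

variable {V : Type} [Fintype V] [DecidableEq V]

/-- colourings of a clique -/
theorem card_cols_clique {G : SimpleGraph V} {S : Finset V}
    (h : ∀ x ∈ S, ∀ y ∈ S, x ≠ y → G.Adj x y) (q : ℕ) :
    (cols G S q).card = q.descFactorial S.card := by
  classical
  have e : {c // c ∈ cols G S q} ≃ (S ↪ Fin q) :=
    { toFun := fun c => ⟨fun x => ⟨c.1 x.1, (mem_cols.1 c.2).1 x.1 x.2⟩, by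
        intro x y hxy
        by_contra hne
        have h1 : x.1 ≠ y.1 := fun h => hne (Subtype.ext h)
        have h2 := (mem_cols.1 c.2).2.2 x.1 x.2 y.1 y.2 (h _ x.2 _ y.2 h1)
        exact h2 (by simpa using congrArg Fin.val hxy)⟩
      invFun := fun f => ⟨fun v => if hv : v ∈ S then (f ⟨v, hv⟩).1 else 0, by
        rw [mem_cols]
        refine ⟨fun v hv => ?_, fun v hv => ?_, fun u hu v hv ha => ?_⟩
        · rw [dif_pos hv]
          exact (f ⟨v, hv⟩).2
        · rw [dif_neg hv]
        · rw [dif_pos hu, dif_pos hv]
          intro h3
          have h4 := f.injective (Fin.ext h3)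
          exact ha.ne (by simpa using h4)⟩
      left_inv := by
        rintro ⟨c, hc⟩
        apply Subtype.ext
        funext v
        by_cases hv : v ∈ S
        · simp only [hv, dif_pos]
          rfl
        · simp [hv, (mem_cols.1 hc).2.1 v hv]
      right_inv := by
        intro f
        ext x
        simp }
  have h1 := Fintype.card_congr e
  rw [Fintype.card_coe, Fintype.card_embedding_eq, Fintype.card_fin, Fintype.card_coe] at h1
  exact h1

theorem chi_clique {G : SimpleGraph V} {S : Finset V}
    (h : ∀ x ∈ S, ∀ y ∈ S, x ≠ y → G.Adj x y) : chi G S = descPochhammer ℤ S.card := by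
  symm
  apply IsChi.eq_chi
  intro q
  rw [card_cols_clique h, descPochhammer_eval_eq_descFactorial]

theorem bet_clique2 {G : SimpleGraph V} {S : Finset V}
    (h : ∀ x ∈ S, ∀ y ∈ S, x ≠ y → G.Adj x y) (hc : S.card = 2) : bet G S = 1 := by
  unfold bet
  rw [chi_clique h, hc]
  rw [show (2 : ℕ) = 1 + 1 from rfl, descPochhammer_succ_right, descPochhammer_one]
  simp [derivative_mul]

theorem bet_clique3 {G : SimpleGraph V} {S : Finset V}
    (h : ∀ x ∈ S, ∀ y ∈ S, x ≠ y → G.Adj x y) (hc : S.card = 3) : bet G S = 1 := by
  unfold bet
  rw [chi_clique h, hc]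
  rw [show (3 : ℕ) = (1 + 1) + 1 from rfl, descPochhammer_succ_right, descPochhammer_succ_right,
    descPochhammer_one]
  simp [derivative_mul]

theorem base3 : Base3S := by
  intro V _ _ G S p hp hT hc
  have h2 := hT.1
  have hch : ChordalOn G S := chordalOn_of_card hc
  -- the set is a clique
  have hcl : ∀ x ∈ S, ∀ y ∈ S, x ≠ y → G.Adj x y := by
    intro x hx y hy hxy
    rcases Nat.lt_or_ge S.card 3 with h3 | h3
    · -- two vertices
      have hS : S = {x, y} := by
        symm
        apply Finset.eq_of_subset_of_card_le
        · intro z hz
          rcases Finset.mem_insert.1 hz with rfl | hz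
          · exact hx
          · rw [Finset.mem_singleton.1 hz]; exact hy
        · rw [Finset.card_pair hxy]; omega
      obtain ⟨a, ha, b, hb, hbA, hab⟩ := hT.2.1.2 {x} (by simpa using hx) ⟨x, by simp⟩ (by
        intro h
        rw [← h, Finset.card_singleton] at h2
        omega)
      rw [Finset.mem_singleton] at ha hbA
      subst ha
      rw [hS, Finset.mem_insert, Finset.mem_singleton] at hb
      rcases hb with hb | hb
      · exact absurd hb hbA
      · rw [← hb]; exact hab
    · -- three vertices: erase the third one
      have hcard : S.card = 3 := by omega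
      have h4 : ∃ z ∈ S, z ≠ x ∧ z ≠ y := by
        by_contra hcon
        push Not at hcon
        have h5 : S ⊆ {x, y} := by
          intro z hz
          rw [Finset.mem_insert, Finset.mem_singleton]
          by_cases hzx : z = x
          · exact Or.inl hzx
          · exact Or.inr (hcon z hz hzx)
        have h6 := Finset.card_le_card h5
        rw [Finset.card_pair hxy] at h6
        omega
      obtain ⟨z, hz, hzx, hzy⟩ := h4
      have hS : S.erase z = {x, y} := by
        symm
        apply Finset.eq_of_subset_of_card_le
        · intro t ht
          rcases Finset.mem_insert.1 ht with rfl | ht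
          · exact Finset.mem_erase.2 ⟨hzx.symm, hx⟩
          · rw [Finset.mem_singleton.1 ht]
            exact Finset.mem_erase.2 ⟨hzy.symm, hy⟩
        · rw [Finset.card_pair hxy, Finset.card_erase_of_mem hz]; omega
      obtain ⟨a, ha, b, hb, hbA, hab⟩ := (hT.2.2 z hz).2 {x} (by
        rw [hS]
        intro t ht
        rw [Finset.mem_singleton.1 ht]
        exact Finset.mem_insert_self _ _) ⟨x, by simp⟩ (by
        intro h
        have := congrArg Finset.card h
        rw [hS, Finset.card_singleton, Finset.card_pair hxy] at this
        omega)
      rw [Finset.mem_singleton] at ha hbA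
      subst ha
      rw [hS, Finset.mem_insert, Finset.mem_singleton] at hb
      rcases hb with hb | hb
      · exact absurd hb hbA
      · rw [← hb]; exact hab
  rcases Nat.lt_or_ge S.card 3 with h3 | h3
  · have hcard : S.card = 2 := by omega
    obtain ⟨x, y, hxy, hS⟩ := Finset.card_eq_two.1 hcard
    have hbet := bet_clique2 hcl hcard
    have hadj : G.Adj x y := hcl x (by rw [hS]; simp) y (by rw [hS]; simp) hxy
    have hrs : rs p G S ≤ Submodule.span ℝ (({row p x y} : Finset (V → Fin 3 → ℝ)) : Set _) := by
      unfold rs
      rw [Submodule.span_le]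
      rintro r ⟨u, hu, v, hv, ha, rfl⟩
      apply Submodule.subset_span
      rw [hS, mem_insert, mem_singleton] at hu hv
      rcases hu with rfl | rfl <;> rcases hv with rfl | rfl
      · exact absurd rfl ha.ne
      · simp
      · rw [row_comm]; simp
      · exact absurd rfl ha.ne
    have hrk : rk p G S ≤ 1 := by
      refine (Submodule.finrank_mono hrs).trans ?_
      refine (finrank_span_finset_le_card _).trans ?_
      simp
    have hne : ne G S = 1 := by
      unfold ne edg
      classical
      rw [Finset.card_eq_one]
      refine ⟨s(x, y), ?_⟩
      ext e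
      rw [mem_filter, mem_singleton]
      constructor
      · rintro ⟨_, he, hm⟩
        induction e with
        | _ u v =>
          have hu := hm u (by simp)
          have hv := hm v (by simp)
          rw [SimpleGraph.mem_edgeSet] at he
          rw [hS, mem_insert, mem_singleton] at hu hv
          rcases hu with rfl | rfl <;> rcases hv with rfl | rfl
          · exact absurd rfl he.ne
          · rfl
          · exact Sym2.eq_swap
          · exact absurd rfl he.ne
      · rintro rfl
        refine ⟨mem_univ _, hadj, ?_⟩
        intro z hz
        rw [Sym2.mem_iff] at hz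
        rw [hS, mem_insert, mem_singleton]
        exact hz
    refine ⟨?_, ?_⟩
    · rw [hbet, hcard]
      have : (2 : ℤ) ^ rk p G S ≤ 2 ^ 1 := pow_le_pow_right₀ (by norm_num) hrk
      norm_num at this ⊢
      exact this
    · intro heq
      refine ⟨hch, ?_⟩
      rw [hbet, hcard] at heq
      rw [hne]
      have h5 : (2 : ℤ) ^ rk p G S = 2 ^ 1 := by rw [heq]; norm_num
      exact pow_right_injective₀ (by norm_num) (by norm_num) h5
  · have hcard : S.card = 3 := by omega
    obtain ⟨x, y, z, hxy, hxz, hyz, hS⟩ := Finset.card_eq_three.1 hcard
    have hbet := bet_clique3 hcl hcard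
    have hx : x ∈ S := by rw [hS]; simp
    have hy : y ∈ S := by rw [hS]; simp
    have hz : z ∈ S := by rw [hS]; simp
    have hrs : rs p G S ≤ Submodule.span ℝ
        (({row p x y, row p x z, row p y z} : Finset (V → Fin 3 → ℝ)) : Set _) := by
      unfold rs
      rw [Submodule.span_le]
      rintro r ⟨u, hu, v, hv, ha, rfl⟩
      apply Submodule.subset_span
      rw [hS, mem_insert, mem_insert, mem_singleton] at hu hv
      rcases hu with rfl | rfl | rfl <;> rcases hv with rfl | rfl | rfl
      · exact absurd rfl ha.ne
      · simp
      · simp
      · rw [row_comm]; simp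
      · exact absurd rfl ha.ne
      · simp
      · rw [row_comm p u v]; simp
      · rw [row_comm p u v]; simp
      · exact absurd rfl ha.ne
    have hrk : rk p G S ≤ 3 := by
      refine (Submodule.finrank_mono hrs).trans ?_
      refine (finrank_span_finset_le_card _).trans ?_
      exact Finset.card_le_three
    have hne : ne G S = 3 := by
      unfold ne edg
      classical
      rw [Finset.card_eq_three]
      refine ⟨s(x, y), s(x, z), s(y, z), ?_, ?_, ?_, ?_⟩
      · intro h
        rw [Sym2.eq_iff] at h
        rcases h with h | h
        · exact hyz h.2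
        · exact hxz h.1
      · intro h
        rw [Sym2.eq_iff] at h
        rcases h with h | h
        · exact hxy h.1
        · exact hxz h.1
      · intro h
        rw [Sym2.eq_iff] at h
        rcases h with h | h
        · exact hxy h.1
        · exact hxz h.1
      · ext e
        rw [mem_filter, mem_insert, mem_insert, mem_singleton]
        constructor
        · rintro ⟨_, he, hm⟩
          induction e with
          | _ u v =>
            have hu := hm u (by simp)
            have hv := hm v (by simp)
            rw [SimpleGraph.mem_edgeSet] at he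
            rw [hS, mem_insert, mem_insert, mem_singleton] at hu hv
            rcases hu with rfl | rfl | rfl <;> rcases hv with rfl | rfl | rfl
            · exact absurd rfl he.ne
            · exact Or.inl rfl
            · exact Or.inr (Or.inl rfl)
            · exact Or.inl Sym2.eq_swap
            · exact absurd rfl he.ne
            · exact Or.inr (Or.inr rfl)
            · exact Or.inr (Or.inl Sym2.eq_swap)
            · exact Or.inr (Or.inr Sym2.eq_swap)
            · exact absurd rfl he.ne
        · have hmem : ∀ u v : V, u ∈ S → v ∈ S → u ≠ v →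
              s(u, v) ∈ (univ : Finset (Sym2 V)) ∧ s(u, v) ∈ G.edgeSet ∧
                ∀ t ∈ s(u, v), t ∈ S := by
            intro u v hu hv huv
            refine ⟨mem_univ _, hcl u hu v hv huv, ?_⟩
            intro t ht
            rw [Sym2.mem_iff] at ht
            rcases ht with rfl | rfl
            · exact hu
            · exact hv
          rintro (rfl | rfl | rfl)
          · exact hmem x y hx hy hxy
          · exact hmem x z hx hz hxz
          · exact hmem y z hy hz hyz
    refine ⟨?_, ?_⟩
    · rw [hbet, hcard]
      have : (2 : ℤ) ^ rk p G S ≤ 2 ^ 3 := pow_le_pow_right₀ (by norm_num) hrk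
      norm_num at this ⊢
      exact this
    · intro heq
      refine ⟨hch, ?_⟩
      rw [hbet, hcard] at heq
      rw [hne]
      have h5 : (2 : ℤ) ^ rk p G S = 2 ^ 3 := by rw [heq]; norm_num
      exact pow_right_injective₀ (by norm_num) (by norm_num) h5

end Pool.Agent.Xu.H80
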